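import Pool.Agent.TH303.SX2

/-!
Self-avoiding walks on the square lattice: cone points at prescribed times and four-armed stars.
-/

set_option autoImplicit false

namespace Pool.Agent.Q168.Cone

open Real
open Pool.Agent.H122R3.SX (walks Adj ncard_walks walks_finite)

/-- rotation by `a` quarter turns -/
def rot (a : Fin 4) (p : ℤ × ℤ) : ℤ × ℤ :=
  if a = 0 then p else if a = 1 then (-p.2, p.1) else if a = 2 then (-p.1, -p.2) else (p.2, -p.1)

/-- the wedge `|x| ≤ η y` -/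
def wed (η : ℝ) : Set (ℤ × ℤ) := {p | |(p.1 : ℝ)| ≤ η * (p.2 : ℝ)}

theorem rot_zero (a : Fin 4) : rot a 0 = 0 := by
  unfold rot
  split_ifs <;> rfl

theorem rot_inj (a : Fin 4) : Function.Injective (rot a) := by
  intro p q h
  unfold rot at h
  split_ifs at h
  · exact h
  all_goals
    simp only [Prod.mk.injEq] at h
    exact Prod.ext (by omega) (by omega)

theorem rot_adj (a : Fin 4) {p q : ℤ × ℤ} (h : Adj p q) : Adj (rot a p) (rot a q) := by
  unfold Adj at *
  unfold rot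
  split_ifs
  · exact h
  · simp only
    rw [show -p.2 - -q.2 = -(p.2 - q.2) by ring, abs_neg, add_comm]
    exact h
  · simp only
    rw [show -p.2 - -q.2 = -(p.2 - q.2) by ring, show -p.1 - -q.1 = -(p.1 - q.1) by ring, abs_neg,
      abs_neg]
    exact h
  · simp only
    rw [show -p.1 - -q.1 = -(p.1 - q.1) by ring, abs_neg, add_comm]
    exact h

theorem adj_sub {p q : ℤ × ℤ} (h : Adj p q) (v : ℤ × ℤ) : Adj (p - v) (q - v) := by
  unfold Adj at *
  simp only [Prod.fst_sub, Prod.snd_sub]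
  rw [sub_sub_sub_cancel_right, sub_sub_sub_cancel_right]
  exact h

theorem adj_symm {p q : ℤ × ℤ} (h : Adj p q) : Adj q p := by
  unfold Adj at *
  rw [abs_sub_comm q.1, abs_sub_comm q.2]
  exact h

/-- different rotations of a wedge of opening `η < 1` meet only at the apex -/
theorem disj {η : ℝ} (h0 : 0 < η) (h1 : η < 1) {a b : Fin 4} (hab : a ≠ b) {p q : ℤ × ℤ}
    (hp : p ∈ wed η) (hq : q ∈ wed η) (h : rot a p = rot b q) : p = 0 ∧ q = 0 := by
  have key : ∀ p : ℤ × ℤ, p ∈ wed η → 0 ≤ p.2 ∧ (p.2 ≠ 0 → |p.1| < p.2) ∧ (p.2 = 0 → p.1 = 0) := by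
    intro p hp
    have h2 : |(p.1 : ℝ)| ≤ η * (p.2 : ℝ) := hp
    have h3 : 0 ≤ (p.2 : ℝ) := by
      by_contra hc
      rw [not_le] at hc
      have : η * (p.2 : ℝ) < 0 := mul_neg_of_pos_of_neg h0 hc
      linarith [abs_nonneg (p.1 : ℝ)]
    refine ⟨by exact_mod_cast h3, ?_, ?_⟩
    · intro hne
      have h4 : 0 < (p.2 : ℝ) := lt_of_le_of_ne h3 (by exact_mod_cast (Ne.symm hne))
      have h5 : |(p.1 : ℝ)| < (p.2 : ℝ) := by nlinarith
      exact_mod_cast h5
    · intro h4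
      rw [h4] at h2
      simp only [Int.cast_zero, mul_zero, abs_nonpos_iff, Int.cast_eq_zero] at h2
      exact h2
  obtain ⟨p0, p1, p2⟩ := key p hp
  obtain ⟨q0, q1, q2⟩ := key q hq
  by_cases hp2 : p.2 = 0
  · have e1 : p = 0 := Prod.ext (p2 hp2) hp2
    refine ⟨e1, ?_⟩
    rw [e1, rot_zero, ← rot_zero b] at h
    exact (rot_inj b h).symm
  · have p3 := p1 hp2
    by_cases hq2 : q.2 = 0
    · have e1 : q = 0 := Prod.ext (q2 hq2) hq2
      refine ⟨?_, e1⟩
      rw [e1, rot_zero, ← rot_zero a] at h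
      exact rot_inj a h
    · exfalso
      have q3 := q1 hq2
      rw [abs_lt] at p3 q3
      unfold rot at h
      fin_cases a <;> fin_cases b <;> simp at hab h <;>
        first
        | (have h1 := congrArg Prod.fst h; have h2 := congrArg Prod.snd h; simp at h1 h2; omega)
        | (obtain ⟨h1, h2⟩ := h; omega)

/-- the `n`-step walks in the wedge -/
def ww (η : ℝ) (n : ℕ) : Set (Fin (n + 1) → ℤ × ℤ) := {f | f ∈ walks n ∧ ∀ i, f i ∈ wed η}

theorem ww_finite (η : ℝ) (n : ℕ) : (ww η n).Finite := (walks_finite n).subset fun _ h => h.1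

/-- the number of walks -/
noncomputable def cc (n : ℕ) : ℕ := (walks n).ncard

theorem cc_pos (n : ℕ) : 0 < cc n := by
  unfold cc
  rw [ncard_walks]
  exact lt_of_lt_of_le (by positivity) (Pool.Agent.H122R3.SX.two_pow_le n)

theorem walks_zero : walks 0 = {fun _ => 0} := by
  ext f
  rw [Set.mem_singleton_iff]
  constructor
  · rintro ⟨h, -⟩
    funext i
    rw [show i = 0 from Fin.ext (by omega)]
    exact h
  · rintro rfl
    exact ⟨rfl, fun i j _ => Fin.ext (by omega), fun i => i.elim0⟩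

theorem cc_zero : cc 0 = 1 := by
  unfold cc
  rw [walks_zero, Set.ncard_singleton]

theorem cc_one : cc 1 ≤ 4 := by
  unfold cc
  rw [ncard_walks]
  exact Pool.Agent.H122R3.SX.c_one_le

theorem one_le_ww {η : ℝ} (hη : 0 < η) {n : ℕ} (_ : n ≤ 1) : 1 ≤ (ww η n).ncard := by
  rw [Nat.succ_le_iff, Set.ncard_pos (ww_finite η n)]
  refine ⟨fun i => (0, (i : ℕ)), ⟨rfl, ?_, ?_⟩, ?_⟩
  · intro i j h
    simp only [Prod.mk.injEq, true_and] at h
    exact Fin.ext (by exact_mod_cast h)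
  · intro i
    unfold Adj
    simp
  · intro i
    change |((0 : ℤ) : ℝ)| ≤ η * (((i : ℕ) : ℤ) : ℝ)
    simp only [Int.cast_zero, abs_zero]
    positivity

/-- the loss -/
noncomputable def los (K : ℝ) (n : ℕ) : ℝ := exp (-(K * log ((n : ℝ) + 2) ^ 3))

theorem wedge_all : ∃ K : ℝ, 0 ≤ K ∧ ∀ η : ℝ, 0 < η → η ≤ 1 → ∀ n : ℕ,
    los (K / η) n * cc n ≤ (ww η n).ncard := by
  obtain ⟨K, hK⟩ := Pool.Agent.TH303.SX2.wedge_final
  have hlog2 : 0 < log 2 := log_pos (by norm_num)
  refine ⟨|K| + log 4 / log 2 ^ 3, by positivity, ?_⟩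
  have hl4 : 0 ≤ log 4 := log_nonneg (by norm_num)
  intro η h0 h1 n
  rcases Nat.lt_or_ge n 2 with hn | hn
  · have e1 : (cc n : ℝ) ≤ 4 := by
      have : n = 0 ∨ n = 1 := by omega
      rcases this with rfl | rfl
      · rw [cc_zero]; norm_num
      · exact_mod_cast cc_one
    have e2 : (1 : ℝ) ≤ (ww η n).ncard := by exact_mod_cast one_le_ww h0 (by omega : n ≤ 1)
    have e3 : los ((|K| + log 4 / log 2 ^ 3) / η) n ≤ 1 / 4 := by
      unfold los
      rw [show (1 : ℝ) / 4 = exp (-(log 4)) by rw [exp_neg, exp_log (by norm_num)]; norm_num]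
      apply exp_le_exp.2
      apply neg_le_neg
      have f1 : log 2 ^ 3 ≤ log ((n : ℝ) + 2) ^ 3 := by
        apply pow_le_pow_left₀ hlog2.le
        apply log_le_log (by norm_num)
        have : (0 : ℝ) ≤ n := Nat.cast_nonneg n
        linarith
      have f2 : log 4 / log 2 ^ 3 ≤ (|K| + log 4 / log 2 ^ 3) / η := by
        rw [le_div_iff₀ h0]
        have : 0 ≤ log 4 / log 2 ^ 3 := by positivity
        nlinarith [abs_nonneg K]
      calc log 4 = log 4 / log 2 ^ 3 * log 2 ^ 3 := by field_simp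
        _ ≤ (|K| + log 4 / log 2 ^ 3) / η * log ((n : ℝ) + 2) ^ 3 := by gcongr
    calc los ((|K| + log 4 / log 2 ^ 3) / η) n * cc n ≤ 1 / 4 * 4 := by
          gcongr
      _ = 1 := by norm_num
      _ ≤ _ := e2
  · have h := hK η h0 h1 n hn
    have hc : (0 : ℝ) < cc n := by exact_mod_cast cc_pos n
    rw [le_div_iff₀ (show (0 : ℝ) < ((walks n).ncard : ℝ) from hc)] at h
    refine le_trans ?_ h
    apply mul_le_mul_of_nonneg_right _ hc.le
    unfold los
    apply exp_le_exp.2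
    apply neg_le_neg
    have hnr : (2 : ℝ) ≤ n := by exact_mod_cast hn
    have f1 : log (n : ℝ) ^ 3 ≤ log ((n : ℝ) + 2) ^ 3 := by
      apply pow_le_pow_left₀ (log_nonneg (by linarith))
      exact log_le_log (by linarith) (by linarith)
    have f2 : K / η ≤ (|K| + log 4 / log 2 ^ 3) / η := by
      apply div_le_div_of_nonneg_right _ h0.le
      have : 0 ≤ log 4 / log 2 ^ 3 := by positivity
      linarith [le_abs_self K]
    have f3 : 0 ≤ (|K| + log 4 / log 2 ^ 3) / η := by positivity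
    have f4 : 0 ≤ log (n : ℝ) ^ 3 := pow_nonneg (log_nonneg (by linarith)) 3
    calc K / η * log (n : ℝ) ^ 3 ≤ (|K| + log 4 / log 2 ^ 3) / η * log (n : ℝ) ^ 3 := by gcongr
      _ ≤ _ := by gcongr

/-- the path glued from the reversed `u` and `v` -/
def gl (a b : Fin 4) {n t : ℕ} (ht : t ≤ n) (u : Fin (t + 1) → ℤ × ℤ)
    (v : Fin (n - t + 1) → ℤ × ℤ) : Fin (n + 1) → ℤ × ℤ := fun i =>
  if h : (i : ℕ) ≤ t then rot a (u ⟨t - i, by omega⟩) - rot a (u (Fin.last t))
  else rot b (v ⟨i - t, by omega⟩) - rot a (u (Fin.last t))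

/-- the event: the past of time `t` is in the cone in direction `a` at `ω(t)` and the future is in
the cone in direction `b` -/
def Ev (η : ℝ) (a b : Fin 4) {n : ℕ} (t : Fin (n + 1)) (ω : Fin (n + 1) → ℤ × ℤ) : Prop :=
  ∀ i, (i ≤ t → ∃ p ∈ wed η, ω i = ω t + rot a p) ∧ (t ≤ i → ∃ p ∈ wed η, ω i = ω t + rot b p)

theorem gl_le {a b : Fin 4} {n t : ℕ} (ht : t ≤ n) (u : Fin (t + 1) → ℤ × ℤ)
    (v : Fin (n - t + 1) → ℤ × ℤ) {i : Fin (n + 1)} (h : (i : ℕ) ≤ t) :
    gl a b ht u v i = rot a (u ⟨t - i, by omega⟩) - rot a (u (Fin.last t)) := by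
  unfold gl
  rw [dif_pos h]

theorem gl_ge {a b : Fin 4} {n t : ℕ} (ht : t ≤ n) {u : Fin (t + 1) → ℤ × ℤ}
    {v : Fin (n - t + 1) → ℤ × ℤ} (hu : u 0 = 0) (hv : v 0 = 0) {i : Fin (n + 1)}
    (h : t ≤ (i : ℕ)) :
    gl a b ht u v i = rot b (v ⟨i - t, by omega⟩) - rot a (u (Fin.last t)) := by
  rcases Nat.eq_or_lt_of_le h with h1 | h1
  · rw [gl_le ht u v h1.symm.le]
    congr 1
    have e1 : (⟨t - i, by omega⟩ : Fin (t + 1)) = 0 := Fin.ext (by simp; omega)
    have e2 : (⟨i - t, by omega⟩ : Fin (n - t + 1)) = 0 := Fin.ext (by simp; omega)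
    rw [e1, e2, hu, hv, rot_zero, rot_zero]
  · unfold gl
    rw [dif_neg (by omega)]

theorem gl_mem {η : ℝ} (h0 : 0 < η) (h1 : η < 1) {a b : Fin 4} (hab : a ≠ b) {n : ℕ}
    (t : Fin (n + 1)) {u : Fin ((t : ℕ) + 1) → ℤ × ℤ} {v : Fin (n - t + 1) → ℤ × ℤ}
    (hu : u ∈ ww η t) (hv : v ∈ ww η (n - t)) :
    gl a b (by omega) u v ∈ walks n ∧ Ev η a b t (gl a b (by omega) u v) := by
  have htn : (t : ℕ) ≤ n := by omega
  obtain ⟨⟨u0, uinj, uadj⟩, uw⟩ := hu
  obtain ⟨⟨v0, vinj, vadj⟩, vw⟩ := hv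
  have hle := fun (i : Fin (n + 1)) (h : (i : ℕ) ≤ t) => gl_le (a := a) (b := b) htn u v h
  have hge := fun (i : Fin (n + 1)) (h : (t : ℕ) ≤ i) =>
    gl_ge (a := a) (b := b) htn (u := u) (v := v) u0 v0 h
  have cross : ∀ i j : Fin (n + 1), (i : ℕ) ≤ t → (t : ℕ) < j →
      gl a b htn u v i ≠ gl a b htn u v j := by
    intro i j hi hj h
    rw [hle i hi, hge j hj.le] at h
    have h2 := sub_left_injective h
    obtain ⟨-, h3⟩ := disj h0 h1 hab (uw _) (vw _) h2
    rw [← v0] at h3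
    have := vinj h3
    have := congrArg Fin.val this
    simp at this
    omega
  refine ⟨⟨?_, ?_, ?_⟩, ?_⟩
  · rw [hle 0 (by simp)]
    have : (⟨(t : ℕ) - ((0 : Fin (n + 1)) : ℕ), by omega⟩ : Fin ((t : ℕ) + 1)) = Fin.last t :=
      Fin.ext (by simp)
    rw [this, sub_self]
  · intro i j h
    rcases Nat.lt_or_ge (t : ℕ) i with hi | hi
    · rcases Nat.lt_or_ge (t : ℕ) j with hj | hj
      · rw [hge i hi.le, hge j hj.le] at h
        have h2 := congrArg Fin.val (vinj (rot_inj b (sub_left_injective h)))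
        simp only at h2
        exact Fin.ext (by omega)
      · exact absurd h.symm (cross j i hj hi)
    · rcases Nat.lt_or_ge (t : ℕ) j with hj | hj
      · exact absurd h (cross i j hi hj)
      · rw [hle i hi, hle j hj] at h
        have h2 := congrArg Fin.val (uinj (rot_inj a (sub_left_injective h)))
        simp only at h2
        exact Fin.ext (by omega)
  · intro i
    rcases Nat.lt_or_ge (i : ℕ) t with hi | hi
    · rw [hle i.castSucc (by simp; omega), hle i.succ (by simp; omega)]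
      apply adj_sub
      apply rot_adj
      apply adj_symm
      have := uadj ⟨t - (i + 1), by omega⟩
      convert this using 3 <;> (simp; try omega)
    · rw [hge i.castSucc (by simp; omega), hge i.succ (by simp; omega)]
      apply adj_sub
      apply rot_adj
      have := vadj ⟨i - t, by omega⟩
      convert this using 3 <;> (simp; try omega)
  · have ht1 : gl a b htn u v t = - rot a (u (Fin.last t)) := by
      rw [hle t le_rfl]
      have : (⟨(t : ℕ) - (t : ℕ), by omega⟩ : Fin ((t : ℕ) + 1)) = 0 := Fin.ext (by simp)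
      rw [this, u0, rot_zero, zero_sub]
    intro i
    refine ⟨fun h => ⟨_, uw ⟨t - i, by omega⟩, ?_⟩, fun h => ⟨_, vw ⟨i - t, by omega⟩, ?_⟩⟩
    · rw [hle i h, ht1]
      abel
    · rw [hge i h, ht1]
      abel

theorem gl_inj {a b : Fin 4} {n t : ℕ} (ht : t ≤ n) {u u' : Fin (t + 1) → ℤ × ℤ}
    {v v' : Fin (n - t + 1) → ℤ × ℤ} (hu : u 0 = 0) (hu' : u' 0 = 0) (hv : v 0 = 0)
    (hv' : v' 0 = 0) (h : gl a b ht u v = gl a b ht u' v') : u = u' ∧ v = v' := by
  have e1 : rot a (u (Fin.last t)) = rot a (u' (Fin.last t)) := by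
    have h1 := congrFun h ⟨t, by omega⟩
    rw [gl_le ht u v (by simp), gl_le ht u' v' (by simp)] at h1
    have e2 : (⟨t - ((⟨t, by omega⟩ : Fin (n + 1)) : ℕ), by simp⟩ : Fin (t + 1)) = 0 :=
      Fin.ext (by simp)
    rw [e2, hu, hu', rot_zero, zero_sub, zero_sub, neg_inj] at h1
    exact h1
  constructor
  · funext j
    have h1 := congrFun h ⟨t - j, by omega⟩
    rw [gl_le ht u v (by simp), gl_le ht u' v' (by simp), e1] at h1
    have h2 := rot_inj a (sub_left_injective h1)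
    have e2 : (⟨t - ((⟨t - j, by omega⟩ : Fin (n + 1)) : ℕ), by simp⟩ : Fin (t + 1)) = j :=
      Fin.ext (by simp; omega)
    rw [e2] at h2
    exact h2
  · funext j
    have h1 := congrFun h ⟨t + j, by omega⟩
    rw [gl_ge ht hu hv (by simp), gl_ge ht hu' hv' (by simp), e1] at h1
    have h2 := rot_inj b (sub_left_injective h1)
    have e2 : (⟨((⟨t + j, by omega⟩ : Fin (n + 1)) : ℕ) - t, by simp; omega⟩ :
        Fin (n - t + 1)) = j := Fin.ext (by simp)
    rw [e2] at h2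
    exact h2

/-- submultiplicativity -/
theorem cc_sub {n t : ℕ} (ht : t ≤ n) : cc n ≤ cc t * cc (n - t) := by
  unfold cc
  rw [← Set.ncard_prod]
  refine Set.ncard_le_ncard_of_injOn
    (fun ω : Fin (n + 1) → ℤ × ℤ => ((fun i : Fin (t + 1) => ω ⟨i, by omega⟩),
      (fun i : Fin (n - t + 1) => ω ⟨t + i, by omega⟩ - ω ⟨t, by omega⟩))) ?_ ?_
    ((walks_finite t).prod (walks_finite (n - t)))
  · rintro ω ⟨h0, hi, ha⟩
    refine ⟨⟨h0, ?_, ?_⟩, ⟨?_, ?_, ?_⟩⟩
    · intro i j h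
      have := congrArg Fin.val (hi h)
      exact Fin.ext (by simpa using this)
    · intro i
      exact ha ⟨i, by omega⟩
    · simp
    · intro i j h
      simp only at h
      have := congrArg Fin.val (hi (sub_left_injective h))
      simp at this
      exact Fin.ext (by omega)
    · intro i
      apply adj_sub
      exact ha ⟨t + i, by omega⟩
  · rintro ω ⟨h0, hi, ha⟩ ω' ⟨h0', hi', ha'⟩ h
    simp only [Prod.mk.injEq] at h
    obtain ⟨h1, h2⟩ := h
    funext i
    rcases Nat.lt_or_ge (i : ℕ) (t + 1) with hit | hit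
    · exact congrFun h1 ⟨i, hit⟩
    · have e1 := congrFun h2 ⟨i - t, by omega⟩
      have e2 := congrFun h1 ⟨t, by omega⟩
      simp only at e1 e2
      rw [e2] at e1
      have e3 := sub_left_injective e1
      have e4 : (⟨t + (i - t), by omega⟩ : Fin (n + 1)) = i := Fin.ext (by simp; omega)
      rw [e4] at e3
      exact e3

theorem cone_time : ∃ K : ℝ, 0 ≤ K ∧ ∀ η : ℝ, 0 < η → η < 1 → ∀ (n : ℕ) (t : Fin (n + 1))
    (a b : Fin 4), a ≠ b →
    los (K / η) n * cc n ≤ ({ω | ω ∈ walks n ∧ Ev η a b t ω}.ncard : ℝ) := by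
  obtain ⟨K, hK0, hK⟩ := wedge_all
  refine ⟨2 * K, by positivity, ?_⟩
  intro η h0 h1 n t a b hab
  have htn : (t : ℕ) ≤ n := by omega
  have s1 : (ww η t).ncard * (ww η (n - t)).ncard ≤ {ω | ω ∈ walks n ∧ Ev η a b t ω}.ncard := by
    rw [← Set.ncard_prod]
    refine Set.ncard_le_ncard_of_injOn (fun q => gl a b htn q.1 q.2) ?_ ?_
      ((walks_finite n).subset fun _ h => h.1)
    · rintro ⟨u, v⟩ ⟨hu, hv⟩
      exact gl_mem h0 h1 hab t hu hv
    · rintro ⟨u, v⟩ ⟨hu, hv⟩ ⟨u', v'⟩ ⟨hu', hv'⟩ h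
      obtain ⟨e1, e2⟩ := gl_inj htn hu.1.1 hu'.1.1 hv.1.1 hv'.1.1 h
      exact Prod.ext e1 e2
  have s2 := hK η h0 h1.le t
  have s3 := hK η h0 h1.le (n - t)
  have s4 : (cc n : ℝ) ≤ cc t * cc (n - t) := by exact_mod_cast cc_sub htn
  have s5 : los (2 * K / η) n ≤ los (K / η) t * los (K / η) (n - t) := by
    unfold los
    rw [← exp_add]
    apply exp_le_exp.2
    have l1 : log (((t : ℕ) : ℝ) + 2) ^ 3 ≤ log ((n : ℝ) + 2) ^ 3 := by
      apply pow_le_pow_left₀
      · apply log_nonneg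
        have : (0 : ℝ) ≤ ((t : ℕ) : ℝ) := Nat.cast_nonneg _
        linarith
      · apply log_le_log (by positivity)
        have : ((t : ℕ) : ℝ) ≤ n := by exact_mod_cast htn
        linarith
    have l2 : log (((n - t : ℕ) : ℝ) + 2) ^ 3 ≤ log ((n : ℝ) + 2) ^ 3 := by
      apply pow_le_pow_left₀
      · apply log_nonneg
        have : (0 : ℝ) ≤ ((n - t : ℕ) : ℝ) := Nat.cast_nonneg _
        linarith
      · apply log_le_log (by positivity)
        have : ((n - t : ℕ) : ℝ) ≤ n := by exact_mod_cast Nat.sub_le _ _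
        linarith
    have hKη : 0 ≤ K / η := by positivity
    have e : 2 * K / η = K / η + K / η := by ring
    rw [e]
    nlinarith [mul_le_mul_of_nonneg_left l1 hKη, mul_le_mul_of_nonneg_left l2 hKη]
  have p1 : 0 < los (K / η) t := exp_pos _
  have p2 : 0 < los (K / η) (n - t) := exp_pos _
  calc los (2 * K / η) n * cc n
      ≤ (los (K / η) t * los (K / η) (n - t)) * (cc t * cc (n - t)) := by gcongr
    _ = (los (K / η) t * cc t) * (los (K / η) (n - t) * cc (n - t)) := by ring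
    _ ≤ (ww η t).ncard * (ww η (n - t)).ncard := by gcongr
    _ ≤ _ := by exact_mod_cast s1

/-- four-armed stars -/
theorem stars : ∃ K : ℝ, 0 ≤ K ∧ ∀ n : Fin 4 → ℕ,
    (∏ j, los K (n j)) * (∏ j, (cc (n j) : ℝ)) ≤
      (Nat.card {f : (j : Fin 4) → Fin (n j + 1) → ℤ × ℤ // (∀ j, f j ∈ walks (n j)) ∧
        ∀ j k, j ≠ k → ∀ i i', f j i = f k i' → f j i = 0} : ℝ) := by
  obtain ⟨K, hK0, hK⟩ := wedge_all
  refine ⟨2 * K, by positivity, ?_⟩
  intro n
  have h0 : (0 : ℝ) < 1 / 2 := by norm_num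
  have h1 : (1 / 2 : ℝ) < 1 := by norm_num
  have fin1 : Finite {f : (j : Fin 4) → Fin (n j + 1) → ℤ × ℤ // (∀ j, f j ∈ walks (n j)) ∧
        ∀ j k, j ≠ k → ∀ i i', f j i = f k i' → f j i = 0} := by
    have : {f : (j : Fin 4) → Fin (n j + 1) → ℤ × ℤ | (∀ j, f j ∈ walks (n j)) ∧
        ∀ j k, j ≠ k → ∀ i i', f j i = f k i' → f j i = 0}.Finite := by
      refine (Set.Finite.pi' (fun j => walks_finite (n j))).subset ?_
      intro f hf
      exact hf.1
    exact this.to_subtype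
  have s1 : ∏ j, (ww (1 / 2) (n j)).ncard ≤
      Nat.card {f : (j : Fin 4) → Fin (n j + 1) → ℤ × ℤ // (∀ j, f j ∈ walks (n j)) ∧
        ∀ j k, j ≠ k → ∀ i i', f j i = f k i' → f j i = 0} := by
    have e1 : ∏ j, (ww (1 / 2) (n j)).ncard = Nat.card ((j : Fin 4) → ww (1 / 2) (n j)) := by
      rw [Nat.card_pi]
      rfl
    rw [e1]
    refine Nat.card_le_card_of_injective
      (fun g => ⟨fun j i => rot j ((g j).1 i), ?_, ?_⟩) ?_
    · intro j
      obtain ⟨⟨u0, uinj, uadj⟩, uw⟩ := (g j).2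
      refine ⟨?_, ?_, ?_⟩
      · change rot j ((g j).1 0) = 0
        rw [u0, rot_zero]
      · intro i i' h
        exact uinj (rot_inj j h)
      · intro i
        exact rot_adj j (uadj i)
    · intro j k hjk i i' h
      obtain ⟨h2, -⟩ := disj h0 h1 hjk ((g j).2.2 i) ((g k).2.2 i') h
      change rot j ((g j).1 i) = 0
      rw [h2, rot_zero]
    · intro g g' h
      simp only [Subtype.mk.injEq] at h
      funext j
      apply Subtype.ext
      funext i
      exact rot_inj j (congrFun (congrFun h j) i)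
  have s2 : (∏ j, los (2 * K) (n j)) * (∏ j, (cc (n j) : ℝ)) ≤
      ∏ j, ((ww (1 / 2) (n j)).ncard : ℝ) := by
    rw [← Finset.prod_mul_distrib]
    apply Finset.prod_le_prod
    · intro j _
      unfold los
      positivity
    · intro j _
      have := hK (1 / 2) h0 h1.le (n j)
      have e : K / (1 / 2) = 2 * K := by ring
      rw [e] at this
      exact this
  refine s2.trans ?_
  exact_mod_cast s1

end Pool.Agent.Q168.Cone
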